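import Pool.Agent.H49.TRO.S1

/-!
# TRO: the first three pieces of the corner
-/

set_option autoImplicit false

namespace Pool.TRO

open Pool.TRN

theorem t_coa : KIAStmt → KIBStmt → COAStmt := by
  intro ka kb c d
  refine ⟨ka (d + 1) 0 _ fun u hu => ⟨0, ?_⟩, kb (d + 1) _ fun u hu => ⟨c, ?_⟩,
    ka (d + 1) 2 _ fun u hu => ⟨2 * c + 2 * d + 1, ?_⟩⟩
  · intro a ha b hb h1 h2
    simp only [T1, Cor, Finset.mem_filter] at ha hb
    push_cast
    constructor <;> omega
  · intro a ha b hb h1 h2
    simp only [T2, Cor, Finset.mem_filter] at ha hb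
    push_cast
    constructor <;> omega
  · intro a ha b hb h1 h2
    simp only [T3, Cor, Finset.mem_filter] at ha hb
    push_cast
    constructor <;> omega

end Pool.TRO
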