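import Pool.Agent.H49.TRO.S1

/-!
# TRO: the numbers
-/

set_option autoImplicit false

namespace Pool.TRO

open Pool.TRN

theorem nmc_big {d u v y : ℤ} (hd : 8 ≤ d) (hu : 0 ≤ u) (hv : d ≤ 2 * v + 2)
    (ht : u + v + 1 ≤ d) (hy : 4 * y ≤ d + 3) : 2 * u * d + 2 * y ≤ v * (2 * u + 3 * v + 7) := by
  have h1 : u * (d - v) ≤ (d - 1 - v) * (d - v) :=
    mul_le_mul_of_nonneg_right (by linarith) (by linarith)
  nlinarith [mul_nonneg (by linarith : 0 ≤ 2 * v + 2 - d) (by linarith : 0 ≤ 2 * v + 2 - d),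
    mul_nonneg (by linarith : 0 ≤ 2 * v + 2 - d) (by linarith : 0 ≤ d - 8)]

theorem nmc_small {d u v y : ℕ} (hd : d < 8) (hv : d ≤ 2 * v + 2)
    (ht : u + v + 1 ≤ d) (hv1 : 1 ≤ v) (hy : 4 * y ≤ d + 3)
    (H : (2 * u + 1) * d ≤ v * (2 * u + 3 * v + 8)) :
    2 * u * d + 2 * y ≤ v * (2 * u + 3 * v + 7) := by
  have hv7 : v ≤ 7 := by omega
  have hu7 : u ≤ 7 := by omega
  interval_cases d <;> interval_cases v <;> (try omega)

theorem nmc_ineq {d u v y x i : ℕ} (hv1 : 1 ≤ v) (ht : u + v + 1 ≤ d)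
    (hy : 4 * y ≤ d + 3) (hx : 4 * ((u + v) * x) + 1 ≤ d + 4 * (u + v)) (hi : i = x - 2)
    (H : (2 * u + 1) * d ≤ v * (2 * u + 3 * v + 8)) :
    2 * u * d + 2 * y + 2 * (v * i) ≤ v * (2 * u + 3 * v + 7) := by
  rcases Nat.lt_or_ge x 3 with h3 | h3
  · have hi0 : i = 0 := by omega
    rw [hi0, mul_zero, mul_zero, add_zero]
    rcases Nat.lt_or_ge d (v + 2 * y) with h4 | h4
    · rcases Nat.lt_or_ge d 8 with h5 | h5
      · exact nmc_small h5 (by omega) ht hv1 hy H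
      · have := nmc_big (d := d) (u := u) (v := v) (y := y) (by exact_mod_cast h5)
          (Int.natCast_nonneg u) (by omega) (by exact_mod_cast ht) (by exact_mod_cast hy)
        exact_mod_cast this
    · nlinarith
  · obtain ⟨j, rfl⟩ : ∃ j, x = j + 3 := ⟨x - 3, by omega⟩
    have hij : i = j + 1 := by omega
    rw [hij]
    have h5 : v * (2 * j + 3) ≤ (u + v) * (2 * j + 3) := Nat.mul_le_mul_right _ (by omega)
    nlinarith

theorem t_nmc : NMCStmt := by
  intro k d u hk hkd hu H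
  obtain ⟨t, rfl⟩ : ∃ t, k = t + 3 := ⟨k - 3, by omega⟩
  obtain ⟨v, rfl⟩ : ∃ v, t = u + v := ⟨t - u, by omega⟩
  have e1 : u + v + 3 - 3 - u = v := by omega
  have e2 : 3 * (u + v + 3) - u - 1 = 2 * u + 3 * v + 8 := by omega
  rw [e1, e2] at H
  have ht : u + v + 1 ≤ d := by omega
  have ht1 : 1 ≤ u + v := by omega
  have hv1 : 1 ≤ v := by
    rcases Nat.eq_zero_or_pos v with h | h
    · rw [h, zero_mul] at H
      have : 0 < (2 * u + 1) * d := Nat.mul_pos (by omega) (by omega)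
      omega
    · exact h
  -- the quotients
  obtain ⟨x, hx⟩ : ∃ x, x = (d + 4 * (u + v) - 1) / (4 * (u + v)) := ⟨_, rfl⟩
  have hx1 : 4 * ((u + v) * x) + 1 ≤ d + 4 * (u + v) := by
    have h1 := Nat.div_mul_le_self (d + 4 * (u + v) - 1) (4 * (u + v))
    rw [← hx] at h1
    have h2 : x * (4 * (u + v)) = 4 * ((u + v) * x) := by ring
    omega
  have hx2 : d ≤ 4 * ((u + v) * x) := by
    have h1 := Nat.lt_div_mul_add (a := d + 4 * (u + v) - 1) (b := 4 * (u + v)) (by omega)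
    rw [← hx] at h1
    have h2 : x * (4 * (u + v)) = 4 * ((u + v) * x) := by ring
    omega
  obtain ⟨y, hy⟩ : ∃ y, y = (d + 3) / 4 := ⟨_, rfl⟩
  have hy1 : 4 * y ≤ d + 3 := by omega
  have hy2 : d ≤ 4 * y := by omega
  have hyx : y ≤ (u + v) * x := by omega
  obtain ⟨i, hi⟩ : ∃ i, i = x - 2 := ⟨_, rfl⟩
  have hmain := nmc_ineq hv1 ht hy1 hx1 hi H
  have hdt : d ≤ (u + v) * (3 * (u + v) + 8) := by
    have h1 : 1 * d ≤ (2 * u + 1) * d := Nat.mul_le_mul_right _ (by omega)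
    have h2 : v * (2 * u + 3 * v + 8) ≤ (u + v) * (3 * (u + v) + 8) :=
      Nat.mul_le_mul (by omega) (by omega)
    omega
  have hxt : x ≤ u + v + 4 := by
    by_contra hcon
    have h1 : (u + v) * (u + v + 5) ≤ (u + v) * x := Nat.mul_le_mul_left _ (by omega)
    have h2 : (u + v) * (u + v + 5) = (u + v) * (u + v) + 5 * (u + v) := by ring
    have h3 : (u + v) * (3 * (u + v) + 8) = 3 * ((u + v) * (u + v)) + 8 * (u + v) := by ring
    have h4 : 0 < (u + v) * (u + v) := Nat.mul_pos (by omega) (by omega)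
    omega
  have hxd : x ≤ d + 2 := by
    by_contra hcon
    have h1 : 1 * x ≤ (u + v) * x := Nat.mul_le_mul_right _ ht1
    have h2 : (u + v) * (d + 3) ≤ (u + v) * x := Nat.mul_le_mul_left _ (by omega)
    have h3 : (u + v) * (d + 3) = (u + v) * d + 3 * (u + v) := by ring
    have h4 : 1 * d ≤ (u + v) * d := Nat.mul_le_mul_right _ ht1
    omega
  refine ⟨i, d + 1 - i, d + 2 - (u + v + 3) + i, (u + v) * d + y, by omega, by omega, by omega,
    ?_, ?_, ?_, ?_, ?_⟩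
  · have h1 : (u + v + 3) * d = (u + v) * d + 3 * d := by ring
    have h2 : (u + v + 3 - 2) * (d + 1) = (u + v) * d + (u + v) + d + 1 := by
      have : u + v + 3 - 2 = u + v + 1 := by omega
      rw [this]
      ring
    rw [h1, h2]
    omega
  · have h1 : 4 * ((u + v + 3) * d) = 4 * ((u + v) * d) + 12 * d := by ring
    rw [h1]
    omega
  · have h1 : u + v + 3 - 3 = u + v := by omega
    rw [h1]
    have h2 : (u + v) * (d + 2 + i) = (u + v) * d + (u + v) * (2 + i) := by ring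
    rw [h2]
    have h3 : (u + v) * x ≤ (u + v) * (2 + i) := Nat.mul_le_mul_left _ (by omega)
    omega
  · rw [e1]
    have h1 : d + 1 - (d + 2 - (u + v + 3) + i) = u + v + 2 - i := by omega
    rw [h1]
    unfold aa
    obtain ⟨w, rfl⟩ : ∃ w, v = w + 1 := ⟨v - 1, by omega⟩
    have h2 : 2 * ((w + 1) * (w + 1 - 1) / 2) = (w + 1) * (w + 1 - 1) :=
      Nat.two_mul_div_two_of_even (Nat.even_mul_pred_self _)
    obtain ⟨g, hg⟩ : ∃ g, g = (w + 1) * (w + 1 - 1) / 2 := ⟨_, rfl⟩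
    rw [← hg] at h2 ⊢
    obtain ⟨f, hf⟩ : ∃ f, f + i = u + (w + 1) + 2 := ⟨u + (w + 1) + 2 - i, by omega⟩
    have h4 : u + (w + 1) + 2 - i = f := by omega
    rw [h4]
    have h5 : w + 1 - 1 = w := by omega
    rw [h5] at h2
    nlinarith
  · have h1 : (u + v + 3) ^ 2 = (u + v + 3 - 2) ^ 2 + 2 * (u + v + 3 - 3) + 2 * (u + v + 3 - 3 - u) +
        7 + (2 * u + 1) := by
      have h2 : u + v + 3 - 2 = u + v + 1 := by omega
      have h3 : u + v + 3 - 3 = u + v := by omega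
      have h4 : u + v - u = v := by omega
      rw [h2, h3, h4]
      ring
    omega

end Pool.TRO
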